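import Pool.Agent.H25.BCE.Stmts
import Pool.Agent.H73.Tube

namespace Pool.Agent.H15.BCE

open Pool.Agent.H25.BCE
open Pool.Agent.H73 (P V solA mu0 mu0_pos act actT solA_inv)

theorem DIN_thm : DINStmt := by
  intro i l a x
  have h : dk l 0 a 0 x = (act mu0 l a x.1, actT mu0 l x.2) := by
    rw [dk_apply]
    refine Prod.ext ?_ ?_
    · funext i
      simp only [Prod.fst_add, Pi.add_apply, LL_fst]
      fin_cases i <;> simp [trn, wt, act] <;> ring
    · funext i
      simp only [Prod.snd_add, Pi.add_apply, LL_snd]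
      fin_cases i <;> simp [trn, wt, actT]
  rw [h]
  exact solA_inv mu0_pos i l a x.1 x.2

end Pool.Agent.H15.BCE
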